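import Mathlib

/-!
Algebraic complex numbers as elements of number fields.
-/

namespace Pool.Agent.Lib_helper11.CUB3

open Polynomial

theorem alg_eq (E : IntermediateField ℚ ℂ) :
    (IntermediateField.algebra' E : Algebra ℚ E) = DivisionRing.toRatAlgebra :=
  Subsingleton.elim _ _

/-- The field generated by an algebraic complex number. -/
theorem exists_field {t : ℂ} {n : ℕ} (hn : 1 ≤ n) (hd : (minpoly ℚ t).natDegree = n) :
    ∃ (K : Type) (_ : Field K) (_ : NumberField K) (φ : K →+* ℂ) (θ : K), φ θ = t ∧
      Module.finrank ℚ K = n ∧ (IsGalois ℚ (IntermediateField.adjoin ℚ {t}) → IsGalois ℚ K) ∧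
      (∀ x : K, minpoly ℤ (φ x) = minpoly ℤ x) ∧ (∀ x : K, minpoly ℚ (φ x) = minpoly ℚ x) := by
  have hint : IsIntegral ℚ t := by
    by_contra h
    rw [minpoly.eq_zero h, natDegree_zero] at hd
    omega
  obtain ⟨E, hE⟩ : ∃ E : IntermediateField ℚ ℂ, E = IntermediateField.adjoin ℚ {t} := ⟨_, rfl⟩
  have hfin : @Module.finrank ℚ E _ _ (IntermediateField.algebra' E).toModule = n := by
    rw [hE, IntermediateField.adjoin.finrank hint, hd]
  have hfd : @FiniteDimensional ℚ E _ _ (IntermediateField.algebra' E).toModule := by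
    rw [hE]; exact IntermediateField.adjoin.finiteDimensional hint
  rw [alg_eq] at hfin hfd
  have hmem : t ∈ E := by rw [hE]; exact IntermediateField.mem_adjoin_simple_self ℚ t
  refine ⟨E, inferInstance, { to_charZero := inferInstance, to_finiteDimensional := hfd },
    E.val.toRingHom, ⟨t, hmem⟩, rfl, hfin, ?_, ?_, ?_⟩
  · intro h
    rw [← hE] at h
    exact h
  · intro x
    exact minpoly.algebraMap_eq (A := ℤ) (B := E) (B' := ℂ) Subtype.coe_injective x
  · intro x
    exact minpoly.algebraMap_eq (A := ℚ) (B := E) (B' := ℂ) Subtype.coe_injective x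

variable {K : Type*} [Field K] [NumberField K]

/-- An irrational element of a field of prime degree generates the field. -/
theorem deg_prime {n : ℕ} (hn : n.Prime) (h : Module.finrank ℚ K = n) {x : K}
    (hx : x ∉ (⊥ : IntermediateField ℚ K)) : (minpoly ℚ x).natDegree = n := by
  have := IntermediateField.isSimpleOrder_of_finrank_prime ℚ K (by rw [h]; exact hn)
  have htop : IntermediateField.adjoin ℚ {x} = (⊤ : IntermediateField ℚ K) := by
    rcases eq_bot_or_eq_top (IntermediateField.adjoin ℚ {x} : IntermediateField ℚ K) with h | h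
    · exact absurd (h ▸ IntermediateField.mem_adjoin_simple_self ℚ x) hx
    · exact h
  rw [← IntermediateField.adjoin.finrank (Algebra.IsIntegral.isIntegral x), htop,
    IntermediateField.finrank_top', h]

/-- A generator is irrational. -/
theorem not_bot {n : ℕ} (hn : 2 ≤ n) {x : K} (hx : (minpoly ℚ x).natDegree = n) :
    x ∉ (⊥ : IntermediateField ℚ K) := by
  intro hm
  obtain ⟨r, hr⟩ := IntermediateField.mem_bot.1 hm
  have h1 : (minpoly ℚ x).natDegree = 1 := by
    rw [← hr, minpoly.eq_X_sub_C, natDegree_X_sub_C]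
  omega

/-- The elements of the field are polynomials in a generator. -/
theorem exists_poly {x : K} (hx : (minpoly ℚ x).natDegree = Module.finrank ℚ K) (y : K) :
    ∃ P : ℚ[X], aeval x P = y := by
  have hint : IsIntegral ℚ x := Algebra.IsIntegral.isIntegral x
  have htop : IntermediateField.adjoin ℚ {x} = (⊤ : IntermediateField ℚ K) := by
    apply IntermediateField.eq_of_le_of_finrank_eq le_top
    rw [IntermediateField.adjoin.finrank hint, hx, IntermediateField.finrank_top']
  have h1 : y ∈ (IntermediateField.adjoin ℚ {x}).toSubalgebra := by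
    rw [htop]; exact IntermediateField.mem_top
  rw [IntermediateField.adjoin_simple_toSubalgebra_of_isAlgebraic hint.isAlgebraic,
    Algebra.adjoin_singleton_eq_range_aeval] at h1
  obtain ⟨P, hP⟩ := h1
  exact ⟨P, hP⟩

theorem map_aeval (φ : K →+* ℂ) (x : K) (P : ℚ[X]) : φ (aeval x P) = aeval (φ x) P := by
  have h := Polynomial.aeval_algHom_apply φ.toRatAlgHom x P
  exact h.symm

/-- Conjugates of an element come from embeddings. -/
theorem exists_emb {x : K} {w : ℂ} (hw : aeval w (minpoly ℚ x) = 0) : ∃ ψ : K →+* ℂ, ψ x = w := by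
  have h := NumberField.Embeddings.range_eval_eq_rootSet_minpoly K ℂ x
  have h2 : w ∈ (minpoly ℚ x).rootSet ℂ := by
    rw [mem_rootSet]
    exact ⟨minpoly.ne_zero (Algebra.IsIntegral.isIntegral x), hw⟩
  rw [← h] at h2
  exact h2

end Pool.Agent.Lib_helper11.CUB3
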